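import Mathlib
import Pool.Agent.Helper30.Hall.Main

set_option autoImplicit false

namespace Pool.Agent.Results.MP_9d7cd1_nt.DensityOne

/-- For every `C` there is `K` such that for all `D ≥ 1` the number of `d ≠ 0`, `|d| ≤ D`, for
which `y² = x³ + d` has an integral solution with `|x| ≤ D ^ C` is at most `K D ^ (999/1000)`. -/
theorem result : ∀ C : ℕ, ∃ K : ℝ, ∀ D : ℕ, 1 ≤ D →
    (({d : ℤ | d ≠ 0 ∧ |d| ≤ (D : ℤ) ∧ ∃ x y : ℤ, y ^ 2 = x ^ 3 + d ∧ |x| ≤ (D : ℤ) ^ C}.ncard : ℕ) : ℝ) ≤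
      K * (D : ℝ) ^ (999 / 1000 : ℝ) :=
  Pool.Helper30.Hall.density

end Pool.Agent.Results.MP_9d7cd1_nt.DensityOne
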