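import Pool.Agent.Helper71.JN.AsmU

set_option autoImplicit false

namespace Pool.Agent.Results.MP_9d7cd1_nt.NearSparsePoints

/-- `z` is a sum of `t` terms `c * γ` with `γ` in `Γ` and an integer `c`, `|c| ≤ H`, and there is a
positive integer `D ≤ H'` such that `D * z` is an algebraic integer, and all the conjugates of `z`
have absolute value at most `H'` -/
def Sparse (Γ : Subgroup ℂˣ) (t : ℕ) (H H' : ℝ) (z : ℂ) : Prop :=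
  (∃ (c : Fin t → ℤ) (γ : Fin t → ℂˣ), (∀ i, γ i ∈ Γ) ∧ (∀ i, |(c i : ℝ)| ≤ H) ∧
    z = ∑ i, (c i : ℂ) * (γ i : ℂ)) ∧
  (∃ D : ℕ, D ≠ 0 ∧ (D : ℝ) ≤ H' ∧ IsIntegral ℤ ((D : ℂ) * z)) ∧
  ∀ z' : ℂ, Polynomial.aeval z' (minpoly ℚ z) = 0 → ‖z'‖ ≤ H'

/-- Hall's inequality for all integral points near a point `(r ^ 2, r ^ 3)`, `r = p / q`, of the
cuspidal curve with sparse `p`, `q`. -/
theorem result (Γ : Subgroup ℂˣ) (hΓ : Γ.FG) (halg : ∀ γ ∈ Γ, IsAlgebraic ℚ (γ : ℂ)) (t : ℕ)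
    (ε η B : ℝ) (hε : 0 < ε) (hη : 0 < η) :
    ∃ κ : ℝ, 0 < κ ∧ ∃ C : ℝ, ∀ (x y : ℤ) (p q : ℂ),
      Sparse Γ t (|(x : ℝ)| ^ κ) (|(x : ℝ)| ^ B) p →
      Sparse Γ t (|(x : ℝ)| ^ κ) (|(x : ℝ)| ^ B) q → q ≠ 0 →
      (‖(x : ℂ) - (p / q) ^ 2‖ ≤ |(x : ℝ)| ^ (1 / 4 - η) ∨
        ‖(y : ℂ) - (p / q) ^ 3‖ ≤ |(x : ℝ)| ^ (3 / 4 - η)) →
      y ^ 2 ≠ x ^ 3 →
      Real.log |(x : ℝ)| ≤ (2 + ε) * Real.log |((y ^ 2 - x ^ 3 : ℤ) : ℝ)| + C :=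
  Pool.Agent.Helper71.JN.u_fin Γ t ε η B hΓ halg hε hη

end Pool.Agent.Results.MP_9d7cd1_nt.NearSparsePoints
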