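import Pool.Agent.Helper70.JN.AsmS

set_option autoImplicit false

namespace Pool.Agent.Results.MP_9d7cd1_nt.SparseDifferences

/-- `z` is a sum of `t` terms `c * γ` with `γ` in `Γ` and an integer `c`, `|c| ≤ H` -/
def Terms (Γ : Subgroup ℂˣ) (t : ℕ) (H : ℝ) (z : ℂ) : Prop :=
  ∃ (c : Fin t → ℤ) (γ : Fin t → ℂˣ), (∀ i, γ i ∈ Γ) ∧ (∀ i, |(c i : ℝ)| ≤ H) ∧
    z = ∑ i, (c i : ℂ) * (γ i : ℂ)

/-- `z` is such a sum, there is a positive integer `D ≤ H'` such that `D * z` is an algebraic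
integer, and all the conjugates of `z` have absolute value at most `H'` -/
def Sparse (Γ : Subgroup ℂˣ) (t : ℕ) (H H' : ℝ) (z : ℂ) : Prop :=
  Terms Γ t H z ∧ (∃ D : ℕ, D ≠ 0 ∧ (D : ℝ) ≤ H' ∧ IsIntegral ℤ ((D : ℂ) * z)) ∧
  ∀ z' : ℂ, Polynomial.aeval z' (minpoly ℚ z) = 0 → ‖z'‖ ≤ H'

/-- `|d|` times the product of the `l`-adic absolute values `|d|_l ^ (5 / 6)`, `l` in `S` -/
noncomputable def NS (S : Finset ℕ) (d : ℤ) : ℝ :=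
  |(d : ℝ)| * ∏ l ∈ S, ((padicNorm l (d : ℚ) : ℚ) : ℝ) ^ (5 / 6 : ℝ)

/-- Hall's inequality, with `NS S d ≤ |d|` in place of `|d|`, for all integral points at distance
`≤ |x| ^ (1 / 2 - η)` from a point `(r ^ 2, r ^ 3)`, `r = p / q`, of the cuspidal curve with sparse
`p`, `q`, if `d = y ^ 2 - x ^ 3` is a sum of `t` terms (for instance `d * 1` if
`|d| ≤ |x| ^ κ`). -/
theorem result (S : Finset ℕ) (hS : ∀ l ∈ S, l.Prime) (Γ : Subgroup ℂˣ) (hΓ : Γ.FG)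
    (halg : ∀ γ ∈ Γ, IsAlgebraic ℚ (γ : ℂ)) (t : ℕ) (ε η B : ℝ) (hε : 0 < ε) (hη : 0 < η) :
    ∃ κ : ℝ, 0 < κ ∧ ∃ C : ℝ, ∀ (x y : ℤ) (p q : ℂ),
      Sparse Γ t (|(x : ℝ)| ^ κ) (|(x : ℝ)| ^ B) p →
      Sparse Γ t (|(x : ℝ)| ^ κ) (|(x : ℝ)| ^ B) q → q ≠ 0 →
      Terms Γ t (|(x : ℝ)| ^ κ) ((y ^ 2 - x ^ 3 : ℤ) : ℂ) →
      (‖(x : ℂ) - (p / q) ^ 2‖ ≤ |(x : ℝ)| ^ (1 / 2 - η) ∨
        ‖(y : ℂ) - (p / q) ^ 3‖ ≤ |(x : ℝ)| ^ (1 - η) ∧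
          |((y ^ 2 - x ^ 3 : ℤ) : ℝ)| ≤ |(x : ℝ)| ^ 2) →
      y ^ 2 ≠ x ^ 3 →
      Real.log |(x : ℝ)| ≤ (2 + ε) * Real.log (NS S (y ^ 2 - x ^ 3)) + C :=
  Pool.Agent.Helper71.JN.s_fin S Γ t ε η B hS hΓ halg hε hη

end Pool.Agent.Results.MP_9d7cd1_nt.SparseDifferences
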