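import Mathlib
import Pool.Agent.Helper99.SZ.All5

/-!
# MP_9d7cd1_nt: integral points on Mordell curves

`log |x| ≤ C √N (1 + log N) ^ 13 (1 + log |d|)` for all integral points on `y² = x³ + d`, where
`N ≤ |d|` is the product over the primes `p ∣ d` of `p²` if `p ∣ x`, of `p` if `p ∤ x` and `v_p(d)`
is odd, and of `1` otherwise.
-/

namespace Pool.Agent.Results.MP_9d7cd1_nt.SquareRootBound

theorem result : ∃ C : ℝ, ∀ d x y : ℤ, d ≠ 0 → y ^ 2 = x ^ 3 + d →
    ∀ N : ℕ, N = ∏ p ∈ d.natAbs.primeFactors,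
      (if (p : ℤ) ∣ x then p ^ 2 else if Odd (d.natAbs.factorization p) then p else 1) →
    N ≤ d.natAbs ∧ Real.log |(x : ℝ)| ≤
      C * Real.sqrt N * (1 + Real.log N) ^ 13 * (1 + Real.log |(d : ℝ)|) := by
  obtain ⟨C, hC⟩ := Pool.Helper99.SZ.sz_HFI
  refine ⟨C, ?_⟩
  intro d x y hd hxy N hN
  have hNN : Pool.Helper99.BK.NN x d = N := by
    rw [hN]
    unfold Pool.Helper99.BK.NN
    apply Finset.prod_congr rfl
    intro p _
    by_cases h : (p : ℤ) ∣ x
    · rw [if_pos h, if_pos h]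
    · rw [if_neg h, if_neg h]
      by_cases h2 : Odd (d.natAbs.factorization p)
      · rw [if_pos h2, Nat.odd_iff.1 h2, pow_one]
      · rw [if_neg h2, Nat.even_iff.1 (Nat.not_odd_iff_even.1 h2), pow_zero]
  have h1 := hC d x y hd hxy
  have h2 := Pool.Helper99.BK.ari_le x y d hd hxy
  rw [hNN] at h1 h2
  exact ⟨h2, h1⟩

end Pool.Agent.Results.MP_9d7cd1_nt.SquareRootBound
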